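import Pool.Agent.Helper43_HAM.Stmts

/-!
# HAM, module BIN
-/

set_option autoImplicit false

namespace Pool.Agent.HAM.H81

open Pool.Agent.HAM

/-- partial sums of a row modulo two -/
theorem sum_row (M : ℕ) : ∀ K : ℕ,
    ((∑ j ∈ Finset.range (K + 1), (M + 1).choose j : ℕ) : ZMod 2) = ((M.choose K : ℕ) : ZMod 2) := by
  intro K
  induction K with
  | zero => simp
  | succ K ih =>
    rw [Finset.sum_range_succ, Nat.cast_add, ih, Nat.choose_succ_succ, Nat.cast_add, ← add_assoc,
      CharTwo.add_self_eq_zero, zero_add]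

/-- Lucas -/
theorem odd_iff : ∀ n M : ℕ, (M.choose (2 ^ n - 1) % 2 = 1 ↔ 2 ^ n ∣ M + 1) := by
  intro n
  induction n with
  | zero => intro M; simp
  | succ n ih =>
    intro M
    have hp : 1 ≤ 2 ^ n := Nat.one_le_two_pow
    have h1 : (2 ^ (n + 1) - 1) % 2 = 1 := by rw [pow_succ]; omega
    have h2 : (2 ^ (n + 1) - 1) / 2 = 2 ^ n - 1 := by rw [pow_succ]; omega
    have : Fact (Nat.Prime 2) := ⟨Nat.prime_two⟩
    have h3 : M.choose (2 ^ (n + 1) - 1) % 2 =
        ((M % 2).choose 1 * (M / 2).choose (2 ^ n - 1)) % 2 := by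
      have := Choose.choose_modEq_choose_mod_mul_choose_div_nat (n := M)
        (k := 2 ^ (n + 1) - 1) (p := 2)
      rw [h1, h2] at this
      exact this
    rw [h3, Nat.choose_one_right]
    rcases Nat.mod_two_eq_zero_or_one M with h | h
    · rw [h, zero_mul]
      constructor
      · intro h; simp at h
      · intro hd
        have : 2 ∣ M + 1 := (Dvd.intro_left (2 ^ n) (by rw [pow_succ])).trans hd
        omega
    · rw [h, one_mul, ih]
      obtain ⟨m, hm⟩ : ∃ m, M = 2 * m + 1 := ⟨M / 2, by omega⟩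
      have h5 : M / 2 = m := by omega
      rw [h5, hm]
      have h6 : 2 * m + 1 + 1 = 2 * (m + 1) := by ring
      rw [h6, pow_succ, mul_comm (2 ^ n) 2]
      exact (Nat.mul_dvd_mul_iff_left (by norm_num)).symm

/-- **BIN** -/
theorem bin : BinStmt := by
  intro n N
  have hp : 1 ≤ 2 ^ n := Nat.one_le_two_pow
  rcases N with _ | M
  · have h0 : ∑ j ∈ Finset.Icc 1 (2 ^ n - 1), Nat.choose 0 j = 0 := by
      refine Finset.sum_eq_zero fun j hj => ?_
      have := (Finset.mem_Icc.1 hj).1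
      exact Nat.choose_eq_zero_of_lt (by omega)
    rw [h0]
    simp
  · have h1 : ∑ j ∈ Finset.range (2 ^ n - 1 + 1), (M + 1).choose j =
        1 + ∑ j ∈ Finset.Icc 1 (2 ^ n - 1), (M + 1).choose j := by
      rw [Finset.range_eq_Ico, Finset.sum_eq_sum_Ico_succ_bot (by omega), Nat.choose_zero_right]
      congr 1
    have h2 := sum_row M (2 ^ n - 1)
    rw [h1, Nat.cast_add, Nat.cast_one] at h2
    have h3 : ((∑ j ∈ Finset.Icc 1 (2 ^ n - 1), (M + 1).choose j : ℕ) : ZMod 2) =
        ((M.choose (2 ^ n - 1) : ℕ) : ZMod 2) + 1 := by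
      rw [← h2, add_comm (1 : ZMod 2), add_assoc, CharTwo.add_self_eq_zero, add_zero]
    rw [h3, ← odd_iff n M]
    have h4 : ((M.choose (2 ^ n - 1) : ℕ) : ZMod 2) + 1 = 1 ↔
        ((M.choose (2 ^ n - 1) : ℕ) : ZMod 2) = 0 := by
      constructor
      · intro h; simpa using h
      · intro h; rw [h, zero_add]
    rw [h4, ZMod.natCast_eq_zero_iff]
    omega

end Pool.Agent.HAM.H81
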